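import Pool.Agent.Q248.PI.Char

/-!
# Semigroups with infinite representation counts and full intersection sets: a characterisation
-/

namespace Pool.Agent.Results.MP_3b8abe_co.Characterisation

open Pool.Agent.Q248.PI Set

universe u

/-- The product `t 0 * t 1 * ⋯ * t k` of a tuple of `k + 1` elements. -/
def tupleProd {S : Type u} [Semigroup S] : (k : ℕ) → (Fin (k + 1) → S) → S
  | 0, t => t 0
  | (k + 1), t => tupleProd k (fun i => t i.castSucc) * t (Fin.last (k + 1))

/-- Property 1: there is a positive `h₀` such that for every `h ≥ h₀` some `x` has infinitely many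
representations as a product of `h` elements (`h = k + 1`). -/
def Property1 (S : Type u) [Semigroup S] : Prop :=
  ∃ h₀ : ℕ, 1 ≤ h₀ ∧ ∀ k : ℕ, h₀ ≤ k + 1 →
    ∃ x : S, {t : Fin (k + 1) → S | tupleProd k t = x}.Infinite

/-- Property 2: `H*_ℕ(S) = {ℕ}`. -/
def Property2 (S : Type u) [Semigroup S] : Prop := HStar S = {{h : ℕ | 1 ≤ h}}

theorem finite_tuples {S : Type u} [Semigroup S]
    (h : ∀ x : S, {p : S × S | p.1 * p.2 = x}.Finite) (k : ℕ) :
    ∀ x : S, {t : Fin (k + 1) → S | tupleProd k t = x}.Finite := by
  induction k with
  | zero =>
    intro x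
    apply (finite_singleton (fun _ => x : Fin 1 → S)).subset
    intro t ht
    rw [mem_singleton_iff]
    funext i
    rw [Subsingleton.elim i 0]
    exact ht
  | succ k ih =>
    intro x
    have hsub : {t : Fin (k + 1 + 1) → S | tupleProd (k + 1) t = x} ⊆
        ⋃ p ∈ {p : S × S | p.1 * p.2 = x},
          (fun t : Fin (k + 1) → S => (Fin.snoc t p.2 : Fin (k + 1 + 1) → S)) ''
            {t : Fin (k + 1) → S | tupleProd k t = p.1} := by
      intro t ht
      simp only [mem_iUnion]
      refine ⟨(tupleProd k (fun i => t i.castSucc), t (Fin.last (k + 1))), ht,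
        (fun i => t i.castSucc), rfl, ?_⟩
      exact Fin.snoc_init_self t
    exact ((h x).biUnion (fun p _ => (ih p.1).image _)).subset hsub

/-- A semigroup `S` has both properties 1 and 2 if and only if some element of `S` has infinitely
many factorisations `x = a b`, and for every `x ∈ S` there are finite sets `P`, `Q` of square
roots of `x` such that only finitely many factorisations `x = a b` have `a ∉ P` and `b ∉ Q`. -/
theorem result (S : Type u) [Semigroup S] :
    (Property1 S ∧ Property2 S) ↔
      ((∃ x : S, {p : S × S | p.1 * p.2 = x}.Infinite) ∧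
      ∀ x : S, ∃ P Q : Set S, P.Finite ∧ Q.Finite ∧ (∀ c ∈ P, c * c = x) ∧ (∀ d ∈ Q, d * d = x) ∧
        {p : S × S | p.1 * p.2 = x ∧ p.1 ∉ P ∧ p.2 ∉ Q}.Finite) := by
  constructor
  · rintro ⟨⟨h₀, _, h1⟩, h2⟩
    constructor
    · by_contra hcon
      push Not at hcon
      obtain ⟨x, hx⟩ := h1 h₀ (by omega)
      exact hx (finite_tuples hcon h₀ x)
    · apply rootCover_of_two
      intro A hA
      have : interSet A ∈ HStar S := ⟨A, hA, rfl⟩
      rw [h2] at this
      rw [mem_singleton_iff.1 this]
      show (1 : ℕ) ≤ 2
      norm_num
  · rintro ⟨⟨x, hx⟩, hc⟩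
    have hc' : RootCover S := hc
    have hidem := hc'.idem hx
    constructor
    · refine ⟨2, by norm_num, ?_⟩
      intro k hk
      refine ⟨x, ?_⟩
      obtain ⟨m, rfl⟩ : ∃ m, k = m + 1 := ⟨k - 1, by omega⟩
      set F : S × S → (Fin (m + 2) → S) := fun p i =>
        if i.val = 0 then p.1 else if i.val = 1 then p.2 else x with hF
      have hinj : InjOn F {p : S × S | p.1 * p.2 = x} := by
        rintro ⟨a, b⟩ _ ⟨a', b'⟩ _ hab
        have e0 := congrFun hab ⟨0, by omega⟩
        have e1 := congrFun hab ⟨1, by omega⟩
        simp only [hF, if_pos] at e0 e1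
        simp at e0 e1
        rw [e0, e1]
      apply (hx.image hinj).mono
      rintro _ ⟨⟨a, b⟩, hab, rfl⟩
      have hab' : a * b = x := hab
      have key : ∀ n : ℕ, tupleProd (n + 1)
          (fun i : Fin (n + 2) => if i.val = 0 then a else if i.val = 1 then b else x) = x := by
        intro n
        induction n with
        | zero => exact hab'
        | succ n ih =>
          show tupleProd (n + 1) _ * _ = x
          rw [show (fun i : Fin (n + 2) => (fun i : Fin (n + 1 + 2) => if i.val = 0 then a else
              if i.val = 1 then b else x) i.castSucc) =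
              (fun i : Fin (n + 2) => if i.val = 0 then a else if i.val = 1 then b else x) from rfl,
            ih]
          simp only [Fin.val_last]
          rw [if_neg (by omega), if_neg (by omega)]
          exact hidem
      exact key m
    · have hinf : Infinite S := by
        by_contra hfin
        rw [not_infinite_iff_finite] at hfin
        exact hx (toFinite _)
      ext X
      rw [mem_singleton_iff]
      constructor
      · rintro ⟨A, hA, rfl⟩
        exact hc'.interSet_eq (antitone_nat_of_succ_le hA.1)
      · rintro rfl
        set f := Infinite.natEmbedding S with hf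
        set A : ℕ → Set S := fun q => {y | ∃ i, q ≤ i ∧ y = f i} with hAdef
        have hasd : ASD A := by
          constructor
          · rintro q y ⟨i, hi, hy⟩
            exact ⟨i, by omega, hy⟩
          · intro q
            refine ⟨q, le_rfl, fun he => ?_⟩
            have : f q ∈ A q := ⟨q, le_rfl, rfl⟩
            rw [← he] at this
            obtain ⟨i, hi, h1⟩ := this
            have := f.injective h1
            omega
        exact ⟨A, hasd, hc'.interSet_eq (antitone_nat_of_succ_le hasd.1)⟩

end Pool.Agent.Results.MP_3b8abe_co.Characterisation
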